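import Pool.Agent.Helper185.Dow4

/-!
The equivalence of Q1 contradicts statements known to be consistent with ZFC.
-/

namespace Pool.Agent.Results.MP_cba831_lc.EquivalenceRefuted

open Pool.Agent.Helper185.Dow

/-- If the existence of a Lusin set is equivalent to the existence of a first-countable, locally
countable Dowker space of size `ℵ₁`, then neither `♣` nor `♦(𝔟)` is compatible with
`non(M) > ℵ₁`. -/
theorem result (h : LusinIffDowker) :
    ¬ (ClubPrinciple ∧ NonMeagerLarge) ∧ ¬ (DiamondB ∧ NonMeagerLarge) :=
  ⟨fun h' => refute h ⟨Or.inl h'.1, h'.2⟩, fun h' => refute h ⟨Or.inr h'.1, h'.2⟩⟩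

end Pool.Agent.Results.MP_cba831_lc.EquivalenceRefuted
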